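import Pool.Agent.K7.H74.AG.Stm
import Pool.Agent.K7.H90.AF.TVL

set_option autoImplicit false

/-!
# Project AG, job TVL: the sum over one variable and the integral
-/

open MeasureTheory Finset

namespace Pool.Agent.K7.H90.AG.Tvl

open Pool.Agent.K7.H74.AG
open Pool.Agent.K7.H74.AF (lo blk Box mx)
open Pool.Agent.K7.H90.AF.Tvl (ps rt G P V rt_nonneg rt_mono rt_pow rt_le_iff G_mono P_nonneg ps_eq V_var V_mono V_nonneg V_le
  lo_le P_measurable RB RB_meas RB_vol)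

/-- the bound for the sections -/
lemma P_bound (k : ℕ) (hk : 2 ≤ k) (a : ℕ) (η m : ℝ) (hm : 1 ≤ m) (hη1 : η ≤ m) (z : ℝ) :
    P k (lo a) (3 ^ a) η z ≤ 2 * m * 3 ^ (k - 1) / ((3 : ℝ) ^ a) ^ (k - 1) := by
  have hk0 : k ≠ 0 := by omega
  have hb0 : (0 : ℝ) ≤ 2 * m * 3 ^ (k - 1) / ((3 : ℝ) ^ a) ^ (k - 1) := by positivity
  set l : ℝ := (lo a : ℝ) with hl'
  have hl : 0 ≤ l := by positivity
  unfold P
  set p := G k l (3 ^ a) (z - η) with hp
  set q := G k l (3 ^ a) (z + η) with hq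
  by_cases hpq : q ≤ p
  · linarith
  push Not at hpq
  have hlp : l ≤ p := le_max_left _ _
  have hq1 : q ≤ min (3 ^ a) (rt k (z + η)) := by
    by_contra hcon
    push Not at hcon
    have : q = l := by
      rw [hq]
      unfold G
      rcases le_total (min ((3 : ℝ) ^ a) (rt k (z + η))) l with h1 | h1
      · exact max_eq_left h1
      · exfalso
        have h2 : q = min ((3 : ℝ) ^ a) (rt k (z + η)) := by
          rw [hq]
          unfold G
          exact max_eq_right h1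
        linarith
    linarith
  have hq3 : q ≤ 3 ^ a := le_trans hq1 (min_le_left _ _)
  have hp3 : p < 3 ^ a := lt_of_lt_of_le hpq hq3
  rcases Nat.eq_zero_or_pos a with ha | ha
  · subst ha
    simp only [pow_zero, one_pow, div_one] at *
    have h1 : (1 : ℝ) ≤ 3 ^ (k - 1) := one_le_pow₀ (by norm_num)
    nlinarith
  · have hla : (3 : ℝ) * l = 3 ^ a := by
      rw [hl']
      unfold lo
      rw [if_neg (by omega)]
      push_cast
      rw [← pow_succ']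
      congr 1
      omega
    have hlpos : 0 < l := by
      have : (0 : ℝ) < 3 ^ a := by positivity
      linarith
    have hppos : 0 < p := lt_of_lt_of_le hlpos hlp
    have hqpos : 0 < q := lt_trans hppos hpq
    have h1 : z - η ≤ p ^ k := by
      apply (rt_le_iff k hk0 _ _ hppos.le).1
      have h2 : min ((3 : ℝ) ^ a) (rt k (z - η)) ≤ p := le_max_right _ _
      rcases min_le_iff.1 h2 with h3 | h3
      · linarith
      · exact h3
    have h2 : q ^ k ≤ z + η := by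
      have h3 : q ≤ rt k (z + η) := le_trans hq1 (min_le_right _ _)
      have h4 : q ^ k ≤ rt k (z + η) ^ k := pow_le_pow_left₀ hqpos.le h3 k
      rw [rt_pow k hk0] at h4
      rcases le_total (z + η) 0 with h5 | h5
      · rw [max_eq_right h5] at h4
        have : 0 < q ^ k := by positivity
        linarith
      · rwa [max_eq_left h5] at h4
    have hk1 : k = (k - 1) + 1 := by omega
    have h3 : l ^ (k - 1) * (q - p) ≤ 2 * m := by
      have h4 : q ^ (k - 1) * (q - p) ≤ q ^ k - p ^ k := by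
        have h5 : p ^ (k - 1) ≤ q ^ (k - 1) := pow_le_pow_left₀ hppos.le hpq.le _
        have h6 : q ^ k = q ^ (k - 1) * q := by
          conv_lhs => rw [hk1, pow_succ]
        have h7 : p ^ k = p ^ (k - 1) * p := by
          conv_lhs => rw [hk1, pow_succ]
        rw [h6, h7]
        nlinarith
      have h5 : l ^ (k - 1) ≤ q ^ (k - 1) := pow_le_pow_left₀ hl (le_trans hlp hpq.le) _
      have h6 : 0 ≤ q - p := by linarith
      calc l ^ (k - 1) * (q - p) ≤ q ^ (k - 1) * (q - p) := mul_le_mul_of_nonneg_right h5 h6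
        _ ≤ 2 * m := by linarith
    rw [← hla, mul_pow]
    have hlk : 0 < l ^ (k - 1) := by positivity
    have h3k : (0 : ℝ) < 3 ^ (k - 1) := by positivity
    rw [le_div_iff₀ (by positivity)]
    calc (q - p) * (3 ^ (k - 1) * l ^ (k - 1)) = 3 ^ (k - 1) * (l ^ (k - 1) * (q - p)) := by ring
      _ ≤ 3 ^ (k - 1) * (2 * m) := mul_le_mul_of_nonneg_left h3 h3k.le
      _ = 2 * m * 3 ^ (k - 1) := by ring

/-- sum and integral, for a function with a variation function -/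
lemma sum_int (g W : ℝ → ℝ) (hg : ∀ v, 0 ≤ g v)
    (h : ∀ n : ℕ, ∀ v : ℝ, (n : ℝ) ≤ v → v < n + 1 → |g v - g n| ≤ W n - W (n + 1 : ℕ)) (a b : ℕ) (hab : a ≤ b) :
    W b ≤ W a ∧
    ∑ x ∈ Finset.Ico a b, ENNReal.ofReal (g x) ≤
      (∫⁻ v in Set.Ico (a : ℝ) b, ENNReal.ofReal (g v)) + ENNReal.ofReal (W a - W b) ∧
    (∫⁻ v in Set.Ico (a : ℝ) b, ENNReal.ofReal (g v)) ≤
      ∑ x ∈ Finset.Ico a b, ENNReal.ofReal (g x) + ENNReal.ofReal (W a - W b) := by
  induction b, hab using Nat.le_induction with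
  | base => simp
  | succ b hab ih =>
    obtain ⟨ih0, ih1, ih2⟩ := ih
    rw [Finset.sum_Ico_succ_top hab]
    have hb0 : (0 : ℝ) ≤ b := by positivity
    have hcab : (a : ℝ) ≤ b := by exact_mod_cast hab
    have hu : Set.Ico (a : ℝ) ((b + 1 : ℕ) : ℝ) = Set.Ico (a : ℝ) b ∪ Set.Ico (b : ℝ) ((b + 1 : ℕ) : ℝ) := by
      rw [Set.Ico_union_Ico_eq_Ico hcab (by push_cast; linarith)]
    have hd : Disjoint (Set.Ico (a : ℝ) b) (Set.Ico (b : ℝ) ((b + 1 : ℕ) : ℝ)) := by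
      rw [Set.disjoint_left]
      rintro w ⟨_, h1⟩ ⟨h2, _⟩
      linarith
    rw [hu, lintegral_union measurableSet_Ico hd]
    have hbb : W ((b + 1 : ℕ) : ℝ) ≤ W b := by
      have h1 := h b b le_rfl (by linarith)
      simp only [sub_self, abs_zero] at h1
      linarith
    have e1 : ENNReal.ofReal (W a - W ((b + 1 : ℕ) : ℝ)) =
        ENNReal.ofReal (W a - W b) + ENNReal.ofReal (W b - W ((b + 1 : ℕ) : ℝ)) := by
      rw [← ENNReal.ofReal_add (by linarith) (by linarith)]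
      congr 1
      ring
    rw [e1]
    set D := W b - W ((b + 1 : ℕ) : ℝ) with hD
    have hD0 : 0 ≤ D := by linarith
    have hvol : volume (Set.Ico (b : ℝ) ((b + 1 : ℕ) : ℝ)) = 1 := by
      rw [Real.volume_Ico]
      push_cast
      simp
    have h1 : ENNReal.ofReal (g b) = ∫⁻ v in Set.Ico (b : ℝ) ((b + 1 : ℕ) : ℝ), ENNReal.ofReal (g b) := by
      rw [setLIntegral_const, hvol, mul_one]
    have h2 : ENNReal.ofReal D = ∫⁻ v in Set.Ico (b : ℝ) ((b + 1 : ℕ) : ℝ), ENNReal.ofReal D := by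
      rw [setLIntegral_const, hvol, mul_one]
    have hs1 : ENNReal.ofReal (g b) ≤
        (∫⁻ v in Set.Ico (b : ℝ) ((b + 1 : ℕ) : ℝ), ENNReal.ofReal (g v)) + ENNReal.ofReal D := by
      rw [h1, h2, ← lintegral_add_right _ measurable_const]
      apply setLIntegral_mono' measurableSet_Ico
      rintro v ⟨hv1, hv2⟩
      rw [← ENNReal.ofReal_add (hg v) hD0]
      apply ENNReal.ofReal_le_ofReal
      have h3 := abs_le.1 (h b v hv1 (by push_cast at hv2; exact hv2))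
      linarith
    have hs2 : (∫⁻ v in Set.Ico (b : ℝ) ((b + 1 : ℕ) : ℝ), ENNReal.ofReal (g v)) ≤
        ENNReal.ofReal (g b) + ENNReal.ofReal D := by
      rw [h1, h2, ← lintegral_add_right _ measurable_const]
      apply setLIntegral_mono' measurableSet_Ico
      rintro v ⟨hv1, hv2⟩
      rw [← ENNReal.ofReal_add (hg _) hD0]
      apply ENNReal.ofReal_le_ofReal
      have h3 := abs_le.1 (h b v hv1 (by push_cast at hv2; exact hv2))
      linarith
    refine ⟨by linarith, ?_, ?_⟩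
    · calc _ ≤ _ := add_le_add ih1 hs1
        _ = _ := by ring
    · calc _ ≤ _ := add_le_add ih2 hs2
        _ = _ := by ring

/-! ### Fubini -/

/-- the volume without conversion -/
noncomputable def vlE (k : ℕ) {t : ℕ} (a : Fin t → ℝ) (b : Fin t → ℕ) (η τ : ℝ) : ENNReal :=
  volume {u : Fin t → ℝ | (∀ i, (lo (b i) : ℝ) ≤ u i ∧ u i < 3 ^ b i) ∧ |∑ i, a i * u i ^ k - τ| ≤ η}

/-- the set in the product -/
def PS (k : ℕ) {t : ℕ} (a : Fin t → ℝ) (β : ℝ) (b : Fin t → ℕ) (c : ℕ) (η τ : ℝ) : Set (ℝ × (Fin t → ℝ)) :=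
  {p | ((lo c : ℝ) ≤ p.1 ∧ p.1 < 3 ^ c) ∧ (∀ i, (lo (b i) : ℝ) ≤ p.2 i ∧ p.2 i < 3 ^ b i) ∧
    |β * p.1 ^ k + ∑ i, a i * p.2 i ^ k - τ| ≤ η}

lemma PS_meas (k : ℕ) {t : ℕ} (a : Fin t → ℝ) (β : ℝ) (b : Fin t → ℕ) (c : ℕ) (η τ : ℝ) :
    MeasurableSet (PS k a β b c η τ) := by
  have h1 : MeasurableSet {p : ℝ × (Fin t → ℝ) | (lo c : ℝ) ≤ p.1 ∧ p.1 < 3 ^ c} :=
    measurable_fst measurableSet_Ico
  have h2 : MeasurableSet {p : ℝ × (Fin t → ℝ) | ∀ i, (lo (b i) : ℝ) ≤ p.2 i ∧ p.2 i < 3 ^ b i} :=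
    measurable_snd (RB_meas b)
  have h3 : MeasurableSet {p : ℝ × (Fin t → ℝ) | |β * p.1 ^ k + ∑ i, a i * p.2 i ^ k - τ| ≤ η} := by
    apply measurableSet_le _ measurable_const
    fun_prop
  exact h1.inter (h2.inter h3)

lemma vlE_snoc (k : ℕ) {t : ℕ} (a : Fin t → ℝ) (β : ℝ) (b : Fin t → ℕ) (c : ℕ) (η τ : ℝ) :
    vlE k (Fin.snoc a β : Fin (t + 1) → ℝ) (Fin.snoc b c : Fin (t + 1) → ℕ) η τ =
      (volume.prod volume) (PS k a β b c η τ) := by
  have hmp := volume_preserving_piFinSuccAbove (fun _ : Fin (t + 1) => ℝ) (Fin.last t)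
  have h1 := hmp.measure_preimage (PS_meas k a β b c η τ).nullMeasurableSet
  rw [← Measure.volume_eq_prod, ← h1]
  unfold vlE
  congr 1
  ext u
  simp only [Set.mem_ofPred_eq, Set.mem_preimage, PS, MeasurableEquiv.piFinSuccAbove_apply,
    Fin.insertNthEquiv_symm_apply, Fin.removeNth, Fin.succAbove_last, Fin.forall_fin_succ', Fin.sum_univ_castSucc,
    Fin.snoc_castSucc, Fin.snoc_last]
  rw [add_comm (∑ i : Fin t, a i * u i.castSucc ^ k) (β * u (Fin.last t) ^ k)]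
  tauto

/-- the first order of integration -/
lemma vlE_one (k : ℕ) {t : ℕ} (a : Fin t → ℝ) (β : ℝ) (b : Fin t → ℕ) (c : ℕ) (η τ : ℝ) :
    vlE k (Fin.snoc a β : Fin (t + 1) → ℝ) (Fin.snoc b c : Fin (t + 1) → ℕ) η τ =
      ∫⁻ v in Set.Ico (lo c : ℝ) (3 ^ c), vlE k a b η (τ - β * v ^ k) := by
  rw [vlE_snoc, Measure.prod_apply (PS_meas k a β b c η τ), ← lintegral_indicator measurableSet_Ico]
  apply lintegral_congr
  intro v
  by_cases hv : v ∈ Set.Ico (lo c : ℝ) (3 ^ c)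
  · rw [Set.indicator_of_mem hv]
    unfold vlE
    congr 1
    ext u
    simp only [PS, Set.mem_preimage, Set.mem_ofPred_eq]
    have e1 : β * v ^ k + ∑ i, a i * u i ^ k - τ = ∑ i, a i * u i ^ k - (τ - β * v ^ k) := by ring
    rw [e1]
    constructor
    · rintro ⟨_, h2, h3⟩
      exact ⟨h2, h3⟩
    · rintro ⟨h2, h3⟩
      exact ⟨hv, h2, h3⟩
  · rw [Set.indicator_of_notMem hv]
    convert measure_empty (μ := volume)
    ext u
    simp only [PS, Set.mem_preimage, Set.mem_ofPred_eq, Set.mem_empty_iff_false, iff_false]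
    rintro ⟨h1, _⟩
    exact hv h1

lemma ps_scale (k : ℕ) (l h η z β : ℝ) (hβ : 0 < β) :
    volume {w : ℝ | l ≤ w ∧ w < h ∧ |β * w ^ k - z| ≤ η} = ps k l h (η / β) (z / β) := by
  unfold ps
  congr 1
  ext w
  simp only [Set.mem_ofPred_eq]
  have e1 : |w ^ k - z / β| = |β * w ^ k - z| / β := by
    rw [← abs_of_pos hβ, ← abs_div, abs_of_pos hβ]
    congr 1
    field_simp
  rw [e1, div_le_div_iff_of_pos_right hβ]

/-- the second order of integration -/
lemma vlE_two (k : ℕ) {t : ℕ} (a : Fin t → ℝ) (β : ℝ) (hβ : 0 < β) (b : Fin t → ℕ) (c : ℕ) (η τ : ℝ) :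
    vlE k (Fin.snoc a β : Fin (t + 1) → ℝ) (Fin.snoc b c : Fin (t + 1) → ℕ) η τ =
      ∫⁻ u in RB b, ps k (lo c) (3 ^ c) (η / β) ((τ - ∑ i, a i * u i ^ k) / β) := by
  rw [vlE_snoc, Measure.prod_apply_symm (PS_meas k a β b c η τ), ← lintegral_indicator (RB_meas b)]
  apply lintegral_congr
  intro u
  by_cases hu : u ∈ RB b
  · rw [Set.indicator_of_mem hu, ← ps_scale k _ _ _ _ _ hβ]
    congr 1
    ext v
    simp only [PS, Set.mem_preimage, Set.mem_ofPred_eq]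
    have e1 : β * v ^ k + ∑ i, a i * u i ^ k - τ = β * v ^ k - (τ - ∑ i, a i * u i ^ k) := by ring
    rw [e1]
    constructor
    · rintro ⟨h1, _, h3⟩
      exact ⟨h1.1, h1.2, h3⟩
    · rintro ⟨h1, h2, h3⟩
      exact ⟨⟨h1, h2⟩, hu, h3⟩
  · rw [Set.indicator_of_notMem hu]
    convert measure_empty (μ := volume)
    ext v
    simp only [PS, Set.mem_preimage, Set.mem_ofPred_eq, Set.mem_empty_iff_false, iff_false]
    rintro ⟨_, h1, _⟩
    exact hu h1

lemma vlE_lt_top (k : ℕ) {t : ℕ} (a : Fin t → ℝ) (b : Fin t → ℕ) (η τ : ℝ) : vlE k a b η τ < ⊤ := by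
  obtain ⟨c, hc⟩ : ∃ c : ℕ, ∀ i, b i ≤ c := ⟨Finset.univ.sup b, fun i => Finset.le_sup (Finset.mem_univ i)⟩
  calc vlE k a b η τ ≤ volume (RB b) := measure_mono fun u hu => hu.1
    _ ≤ _ := RB_vol b c hc
    _ < ⊤ := ENNReal.ofReal_lt_top

/-- the sum over the new variable, without conversion; `α` is the coefficient of the largest old variable -/
lemma sumE (k : ℕ) (hk : 2 ≤ k) {t : ℕ} (a : Fin t → ℝ) (α : ℝ) (m : ℝ) (hm : 1 ≤ m) (hα : 1 / m ≤ α)
    (b : Fin t → ℕ) (c J : ℕ) (hb : ∀ i, b i ≤ c) (η τ β : ℝ) (hη : 0 < η)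
    (hη1 : η ≤ 1) (hβ : 0 < β) :
    ∑ x ∈ blk J, vlE k (Fin.snoc a α : Fin (t + 1) → ℝ) (Fin.snoc b c : Fin (t + 1) → ℕ) η (τ - β * (x : ℝ) ^ k) ≤
      vlE k (Fin.snoc (Fin.snoc a α : Fin (t + 1) → ℝ) β : Fin (t + 1 + 1) → ℝ)
          (Fin.snoc (Fin.snoc b c : Fin (t + 1) → ℕ) J : Fin (t + 1 + 1) → ℕ) η τ +
        ENNReal.ofReal (2 * (2 * m * 3 ^ (k - 1) / ((3 : ℝ) ^ c) ^ (k - 1)) * ((3 : ℝ) ^ c) ^ t) ∧
    vlE k (Fin.snoc (Fin.snoc a α : Fin (t + 1) → ℝ) β : Fin (t + 1 + 1) → ℝ)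
          (Fin.snoc (Fin.snoc b c : Fin (t + 1) → ℕ) J : Fin (t + 1 + 1) → ℕ) η τ ≤
      ∑ x ∈ blk J, vlE k (Fin.snoc a α : Fin (t + 1) → ℝ) (Fin.snoc b c : Fin (t + 1) → ℕ) η (τ - β * (x : ℝ) ^ k) +
        ENNReal.ofReal (2 * (2 * m * 3 ^ (k - 1) / ((3 : ℝ) ^ c) ^ (k - 1)) * ((3 : ℝ) ^ c) ^ t) := by
  have hk0 : k ≠ 0 := by omega
  have hl : (0 : ℝ) ≤ lo c := by positivity
  have hlh := lo_le c
  have hm0 : 0 < m := by linarith
  have hα0 : 0 < α := lt_of_lt_of_le (by positivity) hα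
  have hη2 : 0 < η / α := by positivity
  have hη3 : η / α ≤ m := by
    rw [div_le_iff₀ hα0]
    have h1 : 1 ≤ m * α := by
      rw [div_le_iff₀ hm0] at hα
      linarith
    linarith
  set M : ℝ := 2 * m * 3 ^ (k - 1) / ((3 : ℝ) ^ c) ^ (k - 1) with hM
  have hM0 : 0 ≤ M := by positivity
  have hPm := P_measurable k (lo c) (3 ^ c) (η / α)
  have hs : Measurable fun u : Fin t → ℝ => ∑ i, a i * u i ^ k := by fun_prop
  -- the fibres
  have hcast : ((3 ^ J : ℕ) : ℝ) = (3 : ℝ) ^ J := by push_cast; ring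
  have hloJ : lo J ≤ 3 ^ J := by
    have := lo_le J
    exact_mod_cast this
  have hfib : ∀ y : ℝ,
      ∑ x ∈ blk J, ENNReal.ofReal (P k (lo c) (3 ^ c) (η / α) ((y - β * (x : ℝ) ^ k) / α)) ≤
        (∫⁻ v in Set.Ico (lo J : ℝ) (3 ^ J), ENNReal.ofReal (P k (lo c) (3 ^ c) (η / α) ((y - β * v ^ k) / α))) +
          ENNReal.ofReal (2 * M) ∧
      (∫⁻ v in Set.Ico (lo J : ℝ) (3 ^ J), ENNReal.ofReal (P k (lo c) (3 ^ c) (η / α) ((y - β * v ^ k) / α))) ≤
        ∑ x ∈ blk J, ENNReal.ofReal (P k (lo c) (3 ^ c) (η / α) ((y - β * (x : ℝ) ^ k) / α)) +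
          ENNReal.ofReal (2 * M) := by
    intro y
    have h1 := sum_int (fun v => P k (lo c) (3 ^ c) (η / α) ((y - β * v ^ k) / α))
      (fun v => V k (lo c) (3 ^ c) (η / α) ((y - β * v ^ k) / α)) (fun v => P_nonneg _ _ _ _ _ hη2.le) (by
        intro n v hv1 hv2
        have hn0 : (0 : ℝ) ≤ n := by positivity
        have hp1 : (n : ℝ) ^ k ≤ v ^ k := pow_le_pow_left₀ hn0 hv1 k
        have hp2 : v ^ k ≤ ((n + 1 : ℕ) : ℝ) ^ k :=
          pow_le_pow_left₀ (le_trans hn0 hv1) (by push_cast; linarith) k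
        have hz1 : (y - β * v ^ k) / α ≤ (y - β * (n : ℝ) ^ k) / α := by
          apply div_le_div_of_nonneg_right _ hα0.le
          have := mul_le_mul_of_nonneg_left hp1 hβ.le
          linarith
        have hz2 : (y - β * ((n + 1 : ℕ) : ℝ) ^ k) / α ≤ (y - β * v ^ k) / α := by
          apply div_le_div_of_nonneg_right _ hα0.le
          have := mul_le_mul_of_nonneg_left hp2 hβ.le
          linarith
        have h2 := V_var k hk0 (lo c) (3 ^ c) (η / α) hl hlh hη2 _ _ hz1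
        have h3 := V_mono k hk0 (lo c) (3 ^ c) (η / α) hl hlh hη2 hz2
        exact h2.trans (sub_le_sub_left h3 _)) (lo J) (3 ^ J) hloJ
    obtain ⟨_, h2, h3⟩ := h1
    rw [hcast] at h2 h3
    have h4 : ENNReal.ofReal (V k (lo c) (3 ^ c) (η / α) ((y - β * (lo J : ℝ) ^ k) / α) -
        V k (lo c) (3 ^ c) (η / α) ((y - β * ((3 : ℝ) ^ J) ^ k) / α)) ≤ ENNReal.ofReal (2 * M) := by
      apply ENNReal.ofReal_le_ofReal
      have h5 := V_le k (lo c) (3 ^ c) (η / α) hη2 M (fun z => P_bound k hk c (η / α) m hm hη3 z)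
        ((y - β * (lo J : ℝ) ^ k) / α)
      have h6 := V_nonneg k hk0 (lo c) (3 ^ c) (η / α) hl hlh hη2 ((y - β * ((3 : ℝ) ^ J) ^ k) / α)
      linarith
    unfold blk
    exact ⟨le_trans h2 (add_le_add le_rfl h4), le_trans h3 (add_le_add le_rfl h4)⟩
  have hvl : ∀ τ' : ℝ, vlE k (Fin.snoc a α : Fin (t + 1) → ℝ) (Fin.snoc b c : Fin (t + 1) → ℕ) η τ' =
      ∫⁻ u in RB b, ENNReal.ofReal (P k (lo c) (3 ^ c) (η / α) ((τ' - ∑ i, a i * u i ^ k) / α)) := by
    intro τ'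
    rw [vlE_two k a α hα0]
    apply lintegral_congr
    intro u
    rw [ps_eq k hk0 _ _ _ _ hl]
  have hmx : ∀ x : ℝ, Measurable fun u : Fin t → ℝ =>
      ENNReal.ofReal (P k (lo c) (3 ^ c) (η / α) ((τ - ∑ i, a i * u i ^ k - x) / α)) := by
    intro x
    exact (hPm.comp (((measurable_const.sub hs).sub_const x).div_const α)).ennreal_ofReal
  have eS : ∑ x ∈ blk J, vlE k (Fin.snoc a α : Fin (t + 1) → ℝ) (Fin.snoc b c : Fin (t + 1) → ℕ) η
        (τ - β * (x : ℝ) ^ k) =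
      ∫⁻ u in RB b, ∑ x ∈ blk J,
        ENNReal.ofReal (P k (lo c) (3 ^ c) (η / α) ((τ - ∑ i, a i * u i ^ k - β * (x : ℝ) ^ k) / α)) := by
    rw [lintegral_finsetSum]
    · apply Finset.sum_congr rfl
      intro x _
      rw [hvl]
      apply lintegral_congr
      intro u
      congr 3
      ring
    · intro x _
      exact hmx _
  have eI : vlE k (Fin.snoc (Fin.snoc a α : Fin (t + 1) → ℝ) β : Fin (t + 1 + 1) → ℝ)
          (Fin.snoc (Fin.snoc b c : Fin (t + 1) → ℕ) J : Fin (t + 1 + 1) → ℕ) η τ =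
      ∫⁻ u in RB b, ∫⁻ v in Set.Ico (lo J : ℝ) (3 ^ J),
          ENNReal.ofReal (P k (lo c) (3 ^ c) (η / α) ((τ - ∑ i, a i * u i ^ k - β * v ^ k) / α)) := by
    rw [vlE_one]
    rw [lintegral_lintegral_swap]
    · apply lintegral_congr
      intro v
      rw [hvl]
      apply lintegral_congr
      intro u
      congr 3
      ring
    · apply Measurable.aemeasurable
      apply Measurable.ennreal_ofReal
      apply hPm.comp
      apply Measurable.div_const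
      apply Measurable.sub
      · exact measurable_const.sub (hs.comp measurable_fst)
      · exact (measurable_snd.pow_const k).const_mul β
  have hE : ENNReal.ofReal (2 * M) * volume (RB b) ≤ ENNReal.ofReal (2 * M * ((3 : ℝ) ^ c) ^ t) := by
    calc ENNReal.ofReal (2 * M) * volume (RB b) ≤ ENNReal.ofReal (2 * M) * ENNReal.ofReal (((3 : ℝ) ^ c) ^ t) :=
          mul_le_mul_right (RB_vol b c hb) _
      _ = _ := by rw [← ENNReal.ofReal_mul (by positivity)]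
  rw [eS, eI]
  constructor
  · calc _ ≤ ∫⁻ u in RB b, ((∫⁻ v in Set.Ico (lo J : ℝ) (3 ^ J),
          ENNReal.ofReal (P k (lo c) (3 ^ c) (η / α) ((τ - ∑ i, a i * u i ^ k - β * v ^ k) / α))) +
            ENNReal.ofReal (2 * M)) := lintegral_mono fun u => (hfib _).1
      _ = _ := by rw [lintegral_add_right _ measurable_const, setLIntegral_const]
      _ ≤ _ := add_le_add le_rfl hE
  · calc _ ≤ ∫⁻ u in RB b, ((∑ x ∈ blk J,
          ENNReal.ofReal (P k (lo c) (3 ^ c) (η / α) ((τ - ∑ i, a i * u i ^ k - β * (x : ℝ) ^ k) / α))) +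
            ENNReal.ofReal (2 * M)) := lintegral_mono fun u => (hfib _).2
      _ = _ := by rw [lintegral_add_right _ measurable_const, setLIntegral_const]
      _ ≤ _ := add_le_add le_rfl hE

/-- the size of the expected number, without conversion -/
lemma sizeE (k : ℕ) (hk : 2 ≤ k) {t : ℕ} (a : Fin t → ℝ) (α : ℝ) (m : ℝ) (hm : 1 ≤ m) (hα : 1 / m ≤ α)
    (b : Fin t → ℕ) (c : ℕ) (hb : ∀ i, b i ≤ c) (η τ : ℝ) (hη1 : η ≤ 1) :
    vlE k (Fin.snoc a α : Fin (t + 1) → ℝ) (Fin.snoc b c : Fin (t + 1) → ℕ) η τ ≤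
      ENNReal.ofReal (2 * m * 3 ^ (k - 1) / ((3 : ℝ) ^ c) ^ (k - 1) * ((3 : ℝ) ^ c) ^ t) := by
  have hk0 : k ≠ 0 := by omega
  have hl : (0 : ℝ) ≤ lo c := by positivity
  have hm0 : 0 < m := by linarith
  have hα0 : 0 < α := lt_of_lt_of_le (by positivity) hα
  have hη3 : η / α ≤ m := by
    rw [div_le_iff₀ hα0]
    have h1 : 1 ≤ m * α := by
      rw [div_le_iff₀ hm0] at hα
      linarith
    linarith
  rw [vlE_two k a α hα0]
  calc _ ≤ ∫⁻ _u in RB b, ENNReal.ofReal (2 * m * 3 ^ (k - 1) / ((3 : ℝ) ^ c) ^ (k - 1)) := by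
        apply lintegral_mono
        intro u
        simp only
        rw [ps_eq k hk0 _ _ _ _ hl]
        exact ENNReal.ofReal_le_ofReal (P_bound k hk c (η / α) m hm hη3 _)
    _ = ENNReal.ofReal (2 * m * 3 ^ (k - 1) / ((3 : ℝ) ^ c) ^ (k - 1)) * volume (RB b) := setLIntegral_const _ _
    _ ≤ ENNReal.ofReal (2 * m * 3 ^ (k - 1) / ((3 : ℝ) ^ c) ^ (k - 1)) * ENNReal.ofReal (((3 : ℝ) ^ c) ^ t) :=
        mul_le_mul_right (RB_vol b c hb) _
    _ = _ := by rw [← ENNReal.ofReal_mul (by positivity)]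

/-- JOB TVL -/
theorem stTvl : StTvl := by
  intro k t m hk hkt hm
  have hm1 : (1 : ℝ) ≤ m := by exact_mod_cast hm
  refine ⟨4 * m * 3 ^ (k - 1), by positivity, ?_, ?_⟩
  · intro a b J η τ β ha hmono hmx hη hη1 hβ1 hβ2
    obtain ⟨t', rfl⟩ : ∃ t', t = t' + 1 := ⟨t - 1, by omega⟩
    have hβ : 0 < β := lt_of_lt_of_le (by positivity) hβ1
    obtain ⟨c, hc⟩ : ∃ c, c = b (Fin.last t') := ⟨_, rfl⟩
    have hcJ : c ≤ J := by
      rw [hc]
      exact le_trans (Finset.le_sup (f := b) (Finset.mem_univ (Fin.last t'))) hmx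
    have hb : ∀ i, (Fin.init b) i ≤ c := fun i => by
      rw [hc]
      exact hmono (Fin.le_last _)
    have hsn : (Fin.snoc (Fin.init b) c : Fin (t' + 1) → ℕ) = b := by
      rw [hc]
      exact Fin.snoc_init_self b
    have hsa : (Fin.snoc (Fin.init a) (a (Fin.last t')) : Fin (t' + 1) → ℝ) = a := Fin.snoc_init_self a
    have h1 := sumE k hk (Fin.init a) (a (Fin.last t')) m hm1 (ha _).1 (Fin.init b) c J hb η τ β hη hη1 hβ
    rw [hsn, hsa] at h1
    have e1 : 2 * (2 * m * 3 ^ (k - 1) / ((3 : ℝ) ^ c) ^ (k - 1)) * ((3 : ℝ) ^ c) ^ t' ≤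
        4 * m * 3 ^ (k - 1) * ((3 : ℝ) ^ J) ^ (t' + 1 - k) := by
      have e2 : t' = (k - 1) + (t' + 1 - k) := by omega
      have e3 : ((3 : ℝ) ^ c) ^ t' = ((3 : ℝ) ^ c) ^ (k - 1) * ((3 : ℝ) ^ c) ^ (t' + 1 - k) := by
        rw [← pow_add, ← e2]
      rw [e3]
      have h3 : ((3 : ℝ) ^ c) ^ (t' + 1 - k) ≤ ((3 : ℝ) ^ J) ^ (t' + 1 - k) :=
        pow_le_pow_left₀ (by positivity) (pow_le_pow_right₀ (by norm_num) hcJ) _
      have h4 : ((3 : ℝ) ^ c) ^ (k - 1) ≠ 0 := by positivity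
      calc 2 * (2 * m * 3 ^ (k - 1) / ((3 : ℝ) ^ c) ^ (k - 1)) *
            (((3 : ℝ) ^ c) ^ (k - 1) * ((3 : ℝ) ^ c) ^ (t' + 1 - k))
          = 4 * m * 3 ^ (k - 1) * ((3 : ℝ) ^ c) ^ (t' + 1 - k) := by
            field_simp
            ring
        _ ≤ _ := mul_le_mul_of_nonneg_left h3 (by positivity)
    have hfin : ∑ x ∈ blk J, vlE k a b η (τ - β * (x : ℝ) ^ k) ≠ ⊤ :=
      (ENNReal.sum_lt_top.2 fun x _ => vlE_lt_top k a b η _).ne
    have h2 := ENNReal.toReal_mono (ENNReal.add_ne_top.2 ⟨(vlE_lt_top k _ _ η τ).ne, ENNReal.ofReal_ne_top⟩) h1.1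
    have h3 := ENNReal.toReal_mono (ENNReal.add_ne_top.2 ⟨hfin, ENNReal.ofReal_ne_top⟩) h1.2
    rw [ENNReal.toReal_sum (fun x _ => (vlE_lt_top k a b η _).ne),
      ENNReal.toReal_add (vlE_lt_top k _ _ η τ).ne ENNReal.ofReal_ne_top,
      ENNReal.toReal_ofReal (by positivity)] at h2
    rw [ENNReal.toReal_add hfin ENNReal.ofReal_ne_top, ENNReal.toReal_sum (fun x _ => (vlE_lt_top k a b η _).ne),
      ENNReal.toReal_ofReal (by positivity)] at h3
    have h4 : ∑ x ∈ blk J, vl k a b η (τ - β * (x : ℝ) ^ k) ≤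
        vl k (Fin.snoc a β : Fin (t' + 1 + 1) → ℝ) (Fin.snoc b J : Fin (t' + 1 + 1) → ℕ) η τ +
          2 * (2 * m * 3 ^ (k - 1) / ((3 : ℝ) ^ c) ^ (k - 1)) * ((3 : ℝ) ^ c) ^ t' := h2
    have h5 : vl k (Fin.snoc a β : Fin (t' + 1 + 1) → ℝ) (Fin.snoc b J : Fin (t' + 1 + 1) → ℕ) η τ ≤
        ∑ x ∈ blk J, vl k a b η (τ - β * (x : ℝ) ^ k) +
          2 * (2 * m * 3 ^ (k - 1) / ((3 : ℝ) ^ c) ^ (k - 1)) * ((3 : ℝ) ^ c) ^ t' := h3
    rw [abs_le]
    constructor <;> linarith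
  · intro a b η τ ha hmono hη hη1
    obtain ⟨t', rfl⟩ : ∃ t', t = t' + 1 := ⟨t - 1, by omega⟩
    obtain ⟨c, hc⟩ : ∃ c, c = b (Fin.last t') := ⟨_, rfl⟩
    have hcJ : c ≤ mx b := by
      rw [hc]
      exact Finset.le_sup (f := b) (Finset.mem_univ (Fin.last t'))
    have hb : ∀ i, (Fin.init b) i ≤ c := fun i => by
      rw [hc]
      exact hmono (Fin.le_last _)
    have hsn : (Fin.snoc (Fin.init b) c : Fin (t' + 1) → ℕ) = b := by
      rw [hc]
      exact Fin.snoc_init_self b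
    have hsa : (Fin.snoc (Fin.init a) (a (Fin.last t')) : Fin (t' + 1) → ℝ) = a := Fin.snoc_init_self a
    have h1 := sizeE k hk (Fin.init a) (a (Fin.last t')) m hm1 (ha _).1 (Fin.init b) c hb η τ hη1
    rw [hsn, hsa] at h1
    have h2 := ENNReal.toReal_mono ENNReal.ofReal_ne_top h1
    rw [ENNReal.toReal_ofReal (by positivity)] at h2
    have h3 : vl k a b η τ ≤ 2 * m * 3 ^ (k - 1) / ((3 : ℝ) ^ c) ^ (k - 1) * ((3 : ℝ) ^ c) ^ t' := h2
    have e2 : t' = (k - 1) + (t' + 1 - k) := by omega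
    have e3 : ((3 : ℝ) ^ c) ^ t' = ((3 : ℝ) ^ c) ^ (k - 1) * ((3 : ℝ) ^ c) ^ (t' + 1 - k) := by
      rw [← pow_add, ← e2]
    rw [e3] at h3
    have h4 : ((3 : ℝ) ^ c) ^ (t' + 1 - k) ≤ ((3 : ℝ) ^ mx b) ^ (t' + 1 - k) :=
      pow_le_pow_left₀ (by positivity) (pow_le_pow_right₀ (by norm_num) hcJ) _
    have h5 : ((3 : ℝ) ^ c) ^ (k - 1) ≠ 0 := by positivity
    calc vl k a b η τ ≤ _ := h3
      _ = 2 * m * 3 ^ (k - 1) * ((3 : ℝ) ^ c) ^ (t' + 1 - k) := by
          field_simp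
      _ ≤ 4 * m * 3 ^ (k - 1) * ((3 : ℝ) ^ c) ^ (t' + 1 - k) := by
          apply mul_le_mul_of_nonneg_right _ (by positivity)
          have : (0 : ℝ) ≤ m * 3 ^ (k - 1) := by positivity
          linarith
      _ ≤ _ := mul_le_mul_of_nonneg_left h4 (by positivity)

end Pool.Agent.K7.H90.AG.Tvl
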